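import Mathlib

set_option autoImplicit false

namespace Pool.Agent.H29R3.SP

open MeasureTheory ProbabilityTheory Filter Topology
open scoped NNReal ENNReal

/-- `|x|^(-s)` is integrable against the Gaussian for `s < 1`. -/
lemma integrable_abs_rpow_gauss {s : ℝ} (hs : s < 1) :
    Integrable (fun x : ℝ => |x| ^ (-s) * Real.exp (-(1/2 : ℝ) * x ^ 2)) := by
  rw [← integrableOn_univ, ← @Set.Iio_union_Ici _ _ (0 : ℝ), integrableOn_union,
    integrableOn_Ici_iff_integrableOn_Ioi]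
  have h0 : IntegrableOn (fun x : ℝ => |x| ^ (-s) * Real.exp (-(1/2 : ℝ) * x ^ 2)) (Set.Ioi 0) := by
    refine (integrableOn_rpow_mul_exp_neg_mul_sq (b := 1/2) (by norm_num) (s := -s)
      (by linarith)).congr_fun ?_ measurableSet_Ioi
    intro x hx
    have hx' : (0 : ℝ) < x := hx
    simp only [abs_of_pos hx']
  refine ⟨?_, h0⟩
  rw [← (Measure.measurePreserving_neg (volume : Measure ℝ)).integrableOn_comp_preimage
      (Homeomorph.neg ℝ).measurableEmbedding]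
  simp only [Function.comp_def, neg_sq, Set.neg_preimage, Set.neg_Iio, neg_zero, abs_neg]
  exact h0

lemma integrable_abs_rpow_gaussianReal {s : ℝ} (hs : s < 1) :
    Integrable (fun x : ℝ => |x| ^ (-s)) (gaussianReal 0 1) := by
  rw [gaussianReal_of_var_ne_zero 0 one_ne_zero,
    integrable_withDensity_iff (measurable_gaussianPDF 0 1)
      (ae_of_all _ fun x => gaussianPDF_lt_top)]
  have h := (integrable_abs_rpow_gauss hs).const_mul ((√(2 * Real.pi * 1))⁻¹)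
  refine h.congr (ae_of_all _ fun x => ?_)
  simp only [toReal_gaussianPDF, gaussianPDFReal_def]
  simp only [NNReal.coe_one, sub_zero]
  rw [show -x ^ 2 / (2 * 1) = -(1/2 : ℝ) * x ^ 2 by ring]
  ring

/-- scaling -/
lemma integral_abs_rpow_gaussianReal {s : ℝ} (v : ℝ≥0) :
    ∫ x, |x| ^ (-s) ∂(gaussianReal 0 v) =
      (v : ℝ) ^ (-s / 2) * ∫ x, |x| ^ (-s) ∂(gaussianReal 0 1) := by
  have h := gaussianReal_map_const_mul (μ := 0) (v := 1) (√(v : ℝ))
  have hv2 : (NNReal.mk ((√(v : ℝ)) ^ 2) (sq_nonneg _)) * 1 = v := by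
    apply NNReal.eq
    rw [mul_one]
    exact Real.sq_sqrt v.2
  rw [mul_zero, hv2] at h
  rw [← h, integral_map (by fun_prop) (Measurable.aestronglyMeasurable (by fun_prop)),
    ← integral_const_mul]
  refine integral_congr_ae (ae_of_all _ fun x => ?_)
  simp only
  have hv : (0 : ℝ) ≤ v := v.2
  rw [abs_mul, abs_of_nonneg (Real.sqrt_nonneg _), Real.mul_rpow (Real.sqrt_nonneg _) (abs_nonneg _),
    Real.sqrt_eq_rpow, ← Real.rpow_mul hv]
  congr 2
  ring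

lemma integrable_abs_rpow_gaussianReal' {s : ℝ} (hs : s < 1) (v : ℝ≥0) :
    Integrable (fun x : ℝ => |x| ^ (-s)) (gaussianReal 0 v) := by
  have h := gaussianReal_map_const_mul (μ := 0) (v := 1) (√(v : ℝ))
  have hv2 : (NNReal.mk ((√(v : ℝ)) ^ 2) (sq_nonneg _)) * 1 = v := by
    apply NNReal.eq
    rw [mul_one]
    exact Real.sq_sqrt v.2
  rw [mul_zero, hv2] at h
  rw [← h, integrable_map_measure (Measurable.aestronglyMeasurable (by fun_prop)) (by fun_prop)]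
  refine ((integrable_abs_rpow_gaussianReal hs).const_mul ((√(v : ℝ)) ^ (-s))).congr
    (ae_of_all _ fun x => ?_)
  simp only [Function.comp_def]
  rw [abs_mul, abs_of_nonneg (Real.sqrt_nonneg _), Real.mul_rpow (Real.sqrt_nonneg _) (abs_nonneg _)]

/-- the kernel identity -/
lemma energy_eq (μ : Measure (ℝ × ℝ)) [IsProbabilityMeasure μ] (v : ℝ≥0) :
    ((∫ z : (ℝ × ℝ) × (ℝ × ℝ), Real.exp (-(v : ℝ) * (z.1.2 - z.2.2) ^ 2 / 2) ∂(μ.prod μ) : ℝ) : ℂ) =
      ((∫ η : ℝ, ‖∫ p : ℝ × ℝ, Complex.exp (((η * p.2 : ℝ) : ℂ) * Complex.I) ∂μ‖ ^ 2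
        ∂(gaussianReal 0 v) : ℝ) : ℂ) := by
  have hker : ∀ x : ℝ, ∫ η : ℝ, Complex.exp (((η * x : ℝ) : ℂ) * Complex.I) ∂(gaussianReal 0 v) =
      ((Real.exp (-(v : ℝ) * x ^ 2 / 2) : ℝ) : ℂ) := by
    intro x
    have h := charFun_gaussianReal (μ := 0) (v := v) x
    rw [charFun_apply_real] at h
    rw [Complex.ofReal_exp]
    convert h using 2
    · funext η
      congr 1
      push_cast
      ring
    · push_cast
      ring
  have h1 : ∀ η : ℝ, ((‖∫ p : ℝ × ℝ, Complex.exp (((η * p.2 : ℝ) : ℂ) * Complex.I) ∂μ‖ ^ 2 : ℝ) : ℂ)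
      = ∫ z : (ℝ × ℝ) × (ℝ × ℝ), Complex.exp (((η * (z.1.2 - z.2.2) : ℝ) : ℂ) * Complex.I)
        ∂(μ.prod μ) := by
    intro η
    have h2 : ∀ z : (ℝ × ℝ) × (ℝ × ℝ), Complex.exp (((η * (z.1.2 - z.2.2) : ℝ) : ℂ) * Complex.I) =
        Complex.exp (((η * z.1.2 : ℝ) : ℂ) * Complex.I) *
          (starRingEnd ℂ) (Complex.exp (((η * z.2.2 : ℝ) : ℂ) * Complex.I)) := by
      intro z
      rw [← Complex.exp_conj, map_mul, Complex.conj_ofReal, Complex.conj_I, ← Complex.exp_add]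
      congr 1
      push_cast
      ring
    simp_rw [h2]
    rw [integral_prod_mul (fun p : ℝ × ℝ => Complex.exp (((η * p.2 : ℝ) : ℂ) * Complex.I))
      (fun p : ℝ × ℝ => (starRingEnd ℂ) (Complex.exp (((η * p.2 : ℝ) : ℂ) * Complex.I))),
      integral_conj, Complex.mul_conj, Complex.normSq_eq_norm_sq]
  rw [← integral_complex_ofReal, ← integral_complex_ofReal]
  simp_rw [h1, ← hker]
  rw [integral_integral_swap]
  · refine Integrable.mono' (integrable_const (1 : ℝ)) ?_ ?_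
    · apply Measurable.aestronglyMeasurable
      fun_prop
    · refine ae_of_all _ fun x => ?_
      simp only [Function.uncurry]
      rw [Complex.norm_exp_ofReal_mul_I]

/-- Fourier decay implies an energy bound. -/
lemma energy_le (μ : Measure (ℝ × ℝ)) [IsProbabilityMeasure μ] {s C : ℝ} (hs0 : 0 < s) (hs1 : s < 1)
    (hC : ∀ ξ : ℝ × ℝ, 1 ≤ ‖ξ‖ →
      ‖∫ p, Complex.exp (((ξ.1 * p.1 + ξ.2 * p.2 : ℝ) : ℂ) * Complex.I) ∂μ‖ ≤ C * ‖ξ‖ ^ (-s / 2)) :
    ∃ C' : ℝ, ∀ v : ℝ≥0, v ≠ 0 →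
      ∫ z : (ℝ × ℝ) × (ℝ × ℝ), Real.exp (-(v : ℝ) * (z.1.2 - z.2.2) ^ 2 / 2) ∂(μ.prod μ) ≤
        C' * (v : ℝ) ^ (-s / 2) := by
  refine ⟨(1 + C ^ 2) * ∫ x, |x| ^ (-s) ∂(gaussianReal 0 1), fun v hv => ?_⟩
  have h := energy_eq μ v
  rw [Complex.ofReal_inj] at h
  rw [h]
  have hb : ∀ η : ℝ, η ≠ 0 →
      ‖∫ p : ℝ × ℝ, Complex.exp (((η * p.2 : ℝ) : ℂ) * Complex.I) ∂μ‖ ^ 2 ≤
        (1 + C ^ 2) * |η| ^ (-s) := by
    intro η hη
    have hη' : 0 < |η| := abs_pos.2 hη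
    by_cases h1 : 1 ≤ |η|
    · have h2 := hC (0, η) (by simpa [Prod.norm_def] using h1)
      have h3 : ‖((0 : ℝ), η)‖ = |η| := by simp [Prod.norm_def]
      simp only [zero_mul, zero_add] at h2
      rw [h3] at h2
      have h4 : (C * |η| ^ (-s / 2)) ^ 2 = C ^ 2 * |η| ^ (-s) := by
        rw [mul_pow, ← Real.rpow_natCast (|η| ^ (-s / 2)) 2, ← Real.rpow_mul hη'.le]
        congr 2
        push_cast
        ring
      calc _ ≤ (C * |η| ^ (-s / 2)) ^ 2 := pow_le_pow_left₀ (norm_nonneg _) h2 2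
        _ = C ^ 2 * |η| ^ (-s) := h4
        _ ≤ (1 + C ^ 2) * |η| ^ (-s) := by
            apply mul_le_mul_of_nonneg_right (by linarith) (Real.rpow_nonneg hη'.le _)
    · push Not at h1
      have h2 : ‖∫ p : ℝ × ℝ, Complex.exp (((η * p.2 : ℝ) : ℂ) * Complex.I) ∂μ‖ ≤ 1 := by
        refine (norm_integral_le_integral_norm _).trans ?_
        simp_rw [Complex.norm_exp_ofReal_mul_I]
        simp
      have h3 : (1 : ℝ) ≤ |η| ^ (-s) :=
        Real.one_le_rpow_of_pos_of_le_one_of_nonpos hη' h1.le (by linarith)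
      calc _ ≤ (1 : ℝ) ^ 2 := pow_le_pow_left₀ (norm_nonneg _) h2 2
        _ ≤ (1 + C ^ 2) * |η| ^ (-s) := by nlinarith [sq_nonneg C]
  have h0 : ∀ᵐ η ∂(gaussianReal 0 v), η ≠ 0 := by
    haveI := nullSingletonClass_gaussianReal (μ := 0) hv
    rw [ae_iff]
    simp
  have hint : Integrable (fun η : ℝ => (1 + C ^ 2) * |η| ^ (-s)) (gaussianReal 0 v) :=
    (integrable_abs_rpow_gaussianReal' hs1 v).const_mul _
  calc _ ≤ ∫ η : ℝ, (1 + C ^ 2) * |η| ^ (-s) ∂(gaussianReal 0 v) := by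
        apply integral_mono_of_nonneg (ae_of_all _ fun η => by positivity) hint
        filter_upwards [h0] with η hη
        exact hb η hη
    _ = (1 + C ^ 2) * ((v : ℝ) ^ (-s / 2) * ∫ x, |x| ^ (-s) ∂(gaussianReal 0 1)) := by
        rw [integral_const_mul, integral_abs_rpow_gaussianReal v]
    _ = _ := by ring

end Pool.Agent.H29R3.SP
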