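import Mathlib
import Pool.Agent.H29R3.SP.Energy

set_option autoImplicit false

namespace Pool.Agent.H29R3.SP

open MeasureTheory ProbabilityTheory Filter Topology
open scoped NNReal ENNReal

section Path

variable {ι : Type} (a u : ι → ℝ)

/-- the pure jump path with jumps `a i` at the times `u i` -/
noncomputable def path (t : ℝ) : ℝ := ∑' i, if 0 < u i ∧ u i ≤ t then a i else 0

/-- half-power summability of the jumps on `(0, M]` -/
def HS : Prop := ∀ M : ℕ, Summable (fun i => if 0 < u i ∧ u i ≤ M then |a i| ^ (1 / 2 : ℝ) else 0)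

variable {a u}

lemma sq_half (x : ℝ) : (|x| ^ (1 / 2 : ℝ)) * (|x| ^ (1 / 2 : ℝ)) = |x| := by
  rw [← Real.sqrt_eq_rpow]
  exact Real.mul_self_sqrt (abs_nonneg _)

lemma HS.abs (h : HS a u) (M : ℕ) :
    Summable (fun i => if 0 < u i ∧ u i ≤ M then |a i| else 0) := by
  have hs := h M
  refine Summable.of_nonneg_of_le (fun i => ?_) (fun i => ?_)
    (hs.mul_left (∑' i, if 0 < u i ∧ u i ≤ M then |a i| ^ (1 / 2 : ℝ) else 0))
  · split_ifs <;> positivity
  · by_cases hi : 0 < u i ∧ u i ≤ M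
    · rw [if_pos hi, if_pos hi]
      have h1 : |a i| ^ (1 / 2 : ℝ) ≤ ∑' i, if 0 < u i ∧ u i ≤ M then |a i| ^ (1 / 2 : ℝ) else 0 := by
        have := hs.le_tsum i (fun j _ => by split_ifs <;> positivity)
        rwa [if_pos hi] at this
      calc |a i| = |a i| ^ (1 / 2 : ℝ) * |a i| ^ (1 / 2 : ℝ) := (sq_half _).symm
        _ ≤ _ := mul_le_mul_of_nonneg_right h1 (by positivity)
    · rw [if_neg hi, if_neg hi, mul_zero]

lemma HS.summable (h : HS a u) (t : ℝ) :
    Summable (fun i => if 0 < u i ∧ u i ≤ t then a i else 0) := by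
  refine Summable.of_norm_bounded (h.abs ⌈t⌉₊) (fun i => ?_)
  by_cases hi : 0 < u i ∧ u i ≤ t
  · rw [if_pos hi, if_pos ⟨hi.1, hi.2.trans (Nat.le_ceil t)⟩, Real.norm_eq_abs]
  · rw [if_neg hi, norm_zero]
    split_ifs <;> positivity

lemma HS.right_cont (h : HS a u) (t : ℝ) :
    ContinuousWithinAt (path a u) (Set.Ici t) t := by
  unfold ContinuousWithinAt path
  refine tendsto_tsum_of_dominated_convergence (h.abs (⌈t⌉₊ + 1)) (fun i => ?_) ?_
  · apply tendsto_nhds_of_eventually_eq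
    by_cases hi : u i ≤ t
    · filter_upwards [self_mem_nhdsWithin] with s hs
      have hs' : t ≤ s := hs
      simp only [hi, hi.trans hs', and_true]
    · have : ∀ᶠ s in 𝓝[Set.Ici t] t, s < u i :=
        mem_nhdsWithin_of_mem_nhds (Iio_mem_nhds (not_le.1 hi))
      filter_upwards [this] with s hs
      rw [if_neg (fun h => absurd h.2 (not_le.2 hs)), if_neg (fun h => hi h.2)]
  · have : ∀ᶠ s in 𝓝[Set.Ici t] t, s < t + 1 :=
      mem_nhdsWithin_of_mem_nhds (Iio_mem_nhds (by linarith))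
    filter_upwards [this] with s hs i
    by_cases hi : 0 < u i ∧ u i ≤ s
    · have hi2 : u i ≤ ((⌈t⌉₊ + 1 : ℕ) : ℝ) := by
        push_cast
        have := Nat.le_ceil t
        linarith [hi.2]
      rw [if_pos hi, if_pos ⟨hi.1, hi2⟩, Real.norm_eq_abs]
    · rw [if_neg hi, norm_zero]
      split_ifs <;> positivity

lemma HS.left_lim (h : HS a u) (t : ℝ) :
    ∃ l : ℝ, Tendsto (path a u) (𝓝[<] t) (𝓝 l) := by
  refine ⟨∑' i, if 0 < u i ∧ u i < t then a i else 0, ?_⟩
  unfold path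
  refine tendsto_tsum_of_dominated_convergence (h.abs ⌈t⌉₊) (fun i => ?_) ?_
  · apply tendsto_nhds_of_eventually_eq
    by_cases hi : u i < t
    · have : ∀ᶠ s in 𝓝[<] t, u i < s :=
        mem_nhdsWithin_of_mem_nhds (Ioi_mem_nhds hi)
      filter_upwards [this] with s hs
      simp only [hi, hs.le, and_true]
    · filter_upwards [self_mem_nhdsWithin] with s hs
      have hs' : s < t := hs
      rw [if_neg (fun h => absurd h.2 (not_le.2 (hs'.trans_le (not_lt.1 hi)))),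
        if_neg (fun h => hi h.2)]
  · filter_upwards [self_mem_nhdsWithin] with s hs i
    have hs' : s < t := hs
    by_cases hi : 0 < u i ∧ u i ≤ s
    · have hi2 : u i ≤ (⌈t⌉₊ : ℝ) := by
        have := Nat.le_ceil t
        linarith [hi.2]
      rw [if_pos hi, if_pos ⟨hi.1, hi2⟩, Real.norm_eq_abs]
    · rw [if_neg hi, norm_zero]
      split_ifs <;> positivity

variable (a u) in
/-- the counting function for scale `δ` -/
noncomputable def cnt (δ : ℝ) (t : ℝ) : ℝ :=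
  ∑' i, if (0 < u i ∧ u i ≤ 1) ∧ u i ≤ t then min 1 (|a i| / δ) else 0

lemma min_le_half {δ : ℝ} (hδ : 0 < δ) (x : ℝ) :
    min 1 (|x| / δ) ≤ (|x| ^ (1 / 2 : ℝ)) * (δ ^ (1 / 2 : ℝ))⁻¹ := by
  have h1 : |x| ^ (1 / 2 : ℝ) * (δ ^ (1 / 2 : ℝ))⁻¹ = (|x| / δ) ^ (1 / 2 : ℝ) := by
    rw [Real.div_rpow (abs_nonneg _) hδ.le]
    exact (div_eq_mul_inv _ _).symm
  rw [h1]
  have h2 : 0 ≤ |x| / δ := by positivity
  by_cases h : |x| / δ ≤ 1
  · rw [min_eq_right h]
    calc |x| / δ = (|x| / δ) ^ (1 : ℝ) := (Real.rpow_one _).symm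
      _ ≤ (|x| / δ) ^ (1 / 2 : ℝ) := Real.rpow_le_rpow_of_exponent_ge' h2 h (by norm_num) (by norm_num)
  · push Not at h
    rw [min_eq_left h.le]
    exact Real.one_le_rpow h.le (by norm_num)

lemma HS.cnt_summable (h : HS a u) {δ : ℝ} (hδ : 0 < δ) (t : ℝ) :
    Summable (fun i => if (0 < u i ∧ u i ≤ 1) ∧ u i ≤ t then min 1 (|a i| / δ) else 0) := by
  have h1 := (h 1).mul_right (δ ^ (1 / 2 : ℝ))⁻¹
  refine Summable.of_nonneg_of_le (fun i => ?_) (fun i => ?_) h1
  · split_ifs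
    · positivity
    · exact le_rfl
  · by_cases hi : (0 < u i ∧ u i ≤ 1) ∧ u i ≤ t
    · rw [if_pos hi, if_pos ⟨hi.1.1, by simpa using hi.1.2⟩]
      exact min_le_half hδ _
    · rw [if_neg hi]
      split_ifs <;> positivity

lemma HS.cnt_mono (h : HS a u) {δ : ℝ} (hδ : 0 < δ) : Monotone (cnt a u δ) := by
  intro s t hst
  refine (h.cnt_summable hδ s).tsum_le_tsum (fun i => ?_) (h.cnt_summable hδ t)
  by_cases hi : (0 < u i ∧ u i ≤ 1) ∧ u i ≤ s
  · rw [if_pos hi, if_pos ⟨hi.1, hi.2.trans hst⟩]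
  · rw [if_neg hi]
    split_ifs <;> positivity

lemma cnt_nonneg {δ : ℝ} (hδ : 0 < δ) (t : ℝ) : 0 ≤ cnt a u δ t := by
  refine tsum_nonneg fun i => ?_
  split_ifs <;> positivity

lemma HS.cnt_le (h : HS a u) {δ : ℝ} (hδ : 0 < δ) (t : ℝ) :
    cnt a u δ t ≤ (∑' i, if 0 < u i ∧ u i ≤ (1 : ℕ) then |a i| ^ (1 / 2 : ℝ) else 0) *
      (δ ^ (1 / 2 : ℝ))⁻¹ := by
  rw [← (h 1).tsum_mul_right]
  refine (h.cnt_summable hδ t).tsum_le_tsum (fun i => ?_) ((h 1).mul_right _)
  by_cases hi : (0 < u i ∧ u i ≤ 1) ∧ u i ≤ t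
  · rw [if_pos hi, if_pos ⟨hi.1.1, by simpa using hi.1.2⟩]
    exact min_le_half hδ _
  · rw [if_neg hi]
    split_ifs <;> positivity

/-- equal counts imply nearby values -/
lemma HS.close (h : HS a u) {δ : ℝ} (hδ : 0 < δ) {s t : ℝ} (hs : 0 ≤ s) (hst : s ≤ t) (ht : t ≤ 1)
    (hc : cnt a u δ t - cnt a u δ s < 1) : |path a u t - path a u s| ≤ δ := by
  -- differences as sums over `(s, t]`
  have hd1 : cnt a u δ t - cnt a u δ s =
      ∑' i, if s < u i ∧ u i ≤ t then min 1 (|a i| / δ) else 0 := by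
    unfold cnt
    rw [← (h.cnt_summable hδ t).tsum_sub (h.cnt_summable hδ s)]
    refine tsum_congr fun i => ?_
    by_cases h1 : u i ≤ s
    · have h2 : u i ≤ t := h1.trans hst
      rw [if_neg (c := s < u i ∧ u i ≤ t) (fun hh => absurd hh.1 (not_lt.2 h1))]
      simp only [h1, h2, and_true]
      exact sub_self _
    · push Not at h1
      have h0 : 0 < u i := lt_of_le_of_lt hs h1
      rw [if_neg (c := (0 < u i ∧ u i ≤ 1) ∧ u i ≤ s) (fun hh => absurd hh.2 (not_le.2 h1)), sub_zero]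
      by_cases h2 : u i ≤ t
      · rw [if_pos ⟨⟨h0, h2.trans ht⟩, h2⟩, if_pos ⟨h1, h2⟩]
      · rw [if_neg (fun hh => h2 hh.2), if_neg (fun hh => h2 hh.2)]
  have hd2 : path a u t - path a u s = ∑' i, if s < u i ∧ u i ≤ t then a i else 0 := by
    unfold path
    rw [← (h.summable t).tsum_sub (h.summable s)]
    refine tsum_congr fun i => ?_
    by_cases h1 : u i ≤ s
    · have h2 : u i ≤ t := h1.trans hst
      rw [if_neg (c := s < u i ∧ u i ≤ t) (fun hh => absurd hh.1 (not_lt.2 h1))]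
      simp only [h1, h2, and_true]
      exact sub_self _
    · push Not at h1
      have h0 : 0 < u i := lt_of_le_of_lt hs h1
      rw [if_neg (c := 0 < u i ∧ u i ≤ s) (fun hh => absurd hh.2 (not_le.2 h1)), sub_zero]
      by_cases h2 : u i ≤ t
      · rw [if_pos ⟨h0, h2⟩, if_pos ⟨h1, h2⟩]
      · rw [if_neg (fun hh => h2 hh.2), if_neg (fun hh => h2 hh.2)]
  have hsum : Summable (fun i => if s < u i ∧ u i ≤ t then min 1 (|a i| / δ) else 0) := by
    refine Summable.of_nonneg_of_le (fun i => ?_) (fun i => ?_) (h.cnt_summable hδ t)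
    · split_ifs <;> positivity
    · by_cases h1 : s < u i ∧ u i ≤ t
      · rw [if_pos h1, if_pos ⟨⟨lt_of_le_of_lt hs h1.1, h1.2.trans ht⟩, h1.2⟩]
      · rw [if_neg h1]
        split_ifs <;> positivity
  rw [hd1] at hc
  have hterm : ∀ i, s < u i ∧ u i ≤ t → |a i| / δ < 1 := by
    intro i hi
    have h1 := hsum.le_tsum i (fun j _ => by split_ifs <;> positivity)
    rw [if_pos hi] at h1
    have h2 : min 1 (|a i| / δ) < 1 := lt_of_le_of_lt h1 hc
    rcases min_lt_iff.1 h2 with h3 | h3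
    · exact absurd h3 (lt_irrefl _)
    · exact h3
  have heq : ∀ i, |if s < u i ∧ u i ≤ t then a i else 0| =
      δ * (if s < u i ∧ u i ≤ t then min 1 (|a i| / δ) else 0) := by
    intro i
    by_cases h1 : s < u i ∧ u i ≤ t
    · rw [if_pos h1, if_pos h1, min_eq_right (hterm i h1).le]
      field_simp
    · rw [if_neg h1, if_neg h1, abs_zero, mul_zero]
  rw [hd2]
  have hsa : Summable (fun i => ‖if s < u i ∧ u i ≤ t then a i else 0‖) := by
    simp_rw [Real.norm_eq_abs, heq]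
    exact hsum.mul_left δ
  calc |∑' i, if s < u i ∧ u i ≤ t then a i else 0|
      ≤ ∑' i, ‖if s < u i ∧ u i ≤ t then a i else 0‖ := norm_tsum_le_tsum_norm hsa
    _ = δ * ∑' i, (if s < u i ∧ u i ≤ t then min 1 (|a i| / δ) else 0) := by
        simp_rw [Real.norm_eq_abs, heq]
        exact hsum.tsum_mul_left δ
    _ ≤ δ * 1 := mul_le_mul_of_nonneg_left hc.le hδ.le
    _ = δ := mul_one _

end Path

end Pool.Agent.H29R3.SP
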