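import Mathlib

set_option autoImplicit false

namespace Pool.Agent.H29R3.SP

open MeasureTheory ProbabilityTheory Filter Topology
open scoped NNReal ENNReal

/-- unit squares -/
def sq (c : ℤ × ℤ) : Set (ℝ × ℝ) := Set.Ioc (c.1 : ℝ) (c.1 + 1) ×ˢ Set.Ioc (c.2 : ℝ) (c.2 + 1)

lemma sq_meas (c : ℤ × ℤ) : MeasurableSet (sq c) := measurableSet_Ioc.prod measurableSet_Ioc

lemma sq_disj : Pairwise (Function.onFun Disjoint sq) := by
  intro c d hcd
  rw [Function.onFun, Set.disjoint_left]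
  rintro p ⟨h1, h2⟩ ⟨h3, h4⟩
  have key : ∀ (m n : ℤ) (x : ℝ), x ∈ Set.Ioc (m : ℝ) (m + 1) → x ∈ Set.Ioc (n : ℝ) (n + 1) →
      m = n := by
    intro m n x hm hn
    have a1 : (m : ℝ) < n + 1 := lt_of_lt_of_le hm.1 hn.2
    have a2 : (n : ℝ) < m + 1 := lt_of_lt_of_le hn.1 hm.2
    have b1 : m < n + 1 := by exact_mod_cast a1
    have b2 : n < m + 1 := by exact_mod_cast a2
    omega
  exact hcd (Prod.ext (key _ _ _ h1 h3) (key _ _ _ h2 h4))

lemma sq_univ : ⋃ c, sq c = Set.univ := by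
  rw [Set.eq_univ_iff_forall]
  intro p
  rw [Set.mem_iUnion]
  have key : ∀ x : ℝ, ∃ m : ℤ, x ∈ Set.Ioc (m : ℝ) (m + 1) := by
    intro x
    have : x ∈ ⋃ n : ℤ, Set.Ioc (n : ℝ) (n + 1) := by
      rw [iUnion_Ioc_intCast]; trivial
    exact Set.mem_iUnion.1 this
  obtain ⟨m, hm⟩ := key p.1
  obtain ⟨n, hn⟩ := key p.2
  exact ⟨(m, n), hm, hn⟩

noncomputable def mu (c : ℤ × ℤ) : Measure (ℝ × ℝ) := volume.restrict (sq c)

instance (c : ℤ × ℤ) : IsProbabilityMeasure (mu c) := by
  constructor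
  rw [mu, Measure.restrict_apply MeasurableSet.univ, Set.univ_inter, sq, Measure.volume_eq_prod,
    Measure.prod_prod, Real.volume_Ioc, Real.volume_Ioc]
  simp

noncomputable def kap (c : ℤ × ℤ) : Measure (ℕ × (ℕ → ℝ × ℝ)) :=
  (poissonMeasure 1).prod (Measure.infinitePi (fun _ : ℕ => mu c))

instance (c : ℤ × ℤ) : IsProbabilityMeasure (kap c) := by
  unfold kap; infer_instance

abbrev Om : Type := ℤ × ℤ → ℕ × (ℕ → ℝ × ℝ)

noncomputable def PP : Measure Om := Measure.infinitePi kap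

instance : IsProbabilityMeasure PP := by
  unfold PP; infer_instance

/-- products over independent coordinates -/
lemma integral_prod_infinitePi {ι : Type} {X : ι → Type} [∀ i, MeasurableSpace (X i)]
    (μ : (i : ι) → Measure (X i)) [∀ i, IsProbabilityMeasure (μ i)] (s : Finset ι)
    (h : (i : ι) → X i → ℂ) (hm : ∀ i, Measurable (h i)) :
    ∫ y, ∏ i ∈ s, h i (y i) ∂(Measure.infinitePi μ) = ∏ i ∈ s, ∫ x, h i x ∂(μ i) := by
  have h1 := MeasureTheory.integral_restrict_infinitePi (μ := μ) (s := s)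
    (f := fun y : (i : s) → X i => ∏ i : s, h i (y i))
    (Measurable.aestronglyMeasurable (by fun_prop))
  rw [integral_fintype_prod_eq_prod (fun (i : s) (x : X i) => h i x)] at h1
  rw [Finset.prod_coe_sort s (fun i => ∫ x, h i x ∂(μ i))] at h1
  rw [← h1]
  refine integral_congr_ae (ae_of_all _ fun y => ?_)
  simp only [Finset.restrict]
  exact (Finset.prod_coe_sort s (fun i => h i (y i))).symm

/-- the compound Poisson formula -/
lemma cell_integral (c : ℤ × ℤ) (g : ℝ × ℝ → ℂ) (hg : Measurable g) (hb : ∀ x, ‖g x‖ ≤ 1) :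
    ∫ p : ℕ × (ℕ → ℝ × ℝ), ∏ k ∈ Finset.range p.1, g (p.2 k) ∂(kap c) =
      Complex.exp (∫ x, g x ∂(mu c) - 1) := by
  have hm : Measurable (fun p : ℕ × (ℕ → ℝ × ℝ) => ∏ k ∈ Finset.range p.1, g (p.2 k)) := by
    apply measurable_from_prod_countable_right
    intro n
    simp only
    fun_prop
  have hint : Integrable (fun p : ℕ × (ℕ → ℝ × ℝ) => ∏ k ∈ Finset.range p.1, g (p.2 k))
      ((poissonMeasure 1).prod (Measure.infinitePi (fun _ : ℕ => mu c))) := by
    refine Integrable.mono' (integrable_const (1 : ℝ)) hm.aestronglyMeasurable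
      (ae_of_all _ fun p => ?_)
    rw [norm_prod]
    exact Finset.prod_le_one (fun _ _ => norm_nonneg _) (fun _ _ => hb _)
  rw [kap, integral_prod _ hint]
  have h1 : ∀ n : ℕ, ∫ y, ∏ k ∈ Finset.range n, g (y k)
      ∂(Measure.infinitePi (fun _ : ℕ => mu c)) = (∫ x, g x ∂(mu c)) ^ n := by
    intro n
    rw [integral_prod_infinitePi (fun _ : ℕ => mu c) (Finset.range n) (fun _ => g) (fun _ => hg)]
    simp
  simp_rw [h1]
  rw [integral_poissonMeasure, Complex.exp_sub]
  generalize (∫ x, g x ∂(mu c)) = A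
  have hE : Complex.exp A = ∑' n : ℕ, A ^ n / (n.factorial : ℂ) := by
    rw [Complex.exp_eq_exp_ℂ, NormedSpace.exp_eq_tsum_div]
  rw [hE, ← tsum_div_const]
  refine tsum_congr fun n => ?_
  simp only [NNReal.coe_one, one_pow, mul_one, Complex.real_smul]
  rw [Real.exp_neg]
  push_cast
  have h2 : Complex.exp 1 ≠ 0 := Complex.exp_ne_zero 1
  have h3 : (n.factorial : ℂ) ≠ 0 := by exact_mod_cast n.factorial_ne_zero
  field_simp

lemma mean_poisson : (∑' k : ℕ, poissonMeasure 1 (Set.Ioi k)) < ∞ := by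
  have h1 : (∑' k : ℕ, poissonMeasure 1 (Set.Ioi k)) = ∫⁻ n : ℕ, (n : ℝ≥0∞) ∂(poissonMeasure 1) := by
    have h2 : ∀ k : ℕ, poissonMeasure 1 (Set.Ioi k) =
        ∫⁻ n : ℕ, (Set.Ioi k).indicator (fun _ => (1 : ℝ≥0∞)) n ∂(poissonMeasure 1) := by
      intro k
      rw [lintegral_indicator MeasurableSet.of_discrete]
      simp
    simp_rw [h2]
    rw [← lintegral_tsum (fun k => (Measurable.of_discrete).aemeasurable)]
    refine lintegral_congr fun n => ?_
    rw [tsum_eq_sum (s := Finset.range n)]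
    · rw [Finset.sum_congr rfl (g := fun _ => (1 : ℝ≥0∞))]
      · simp
      · intro k hk
        rw [Set.indicator_of_mem]
        exact Finset.mem_range.1 hk
    · intro k hk
      rw [Set.indicator_of_notMem]
      intro h
      exact hk (Finset.mem_range.2 h)
  rw [h1]
  have h3 : Integrable (fun n : ℕ => (n : ℝ)) (poissonMeasure 1) := by
    rw [integrable_poissonMeasure_iff]
    refine Summable.of_nonneg_of_le (fun n => by positivity) (fun n => ?_)
      (Real.summable_pow_div_factorial 2)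
    simp only [NNReal.coe_one, one_pow, mul_one, Real.norm_natCast]
    have h4 : (n : ℝ) ≤ 2 ^ n := by exact_mod_cast (Nat.lt_two_pow_self (n := n)).le
    have h5 : Real.exp (-1) ≤ 1 := Real.exp_le_one_iff.2 (by norm_num)
    have h6 : (0 : ℝ) < n.factorial := by positivity
    have h7 := Real.exp_pos (-1)
    rw [div_mul_eq_mul_div]
    apply div_le_div_of_nonneg_right _ h6.le
    nlinarith
  have h8 := h3.lintegral_lt_top
  refine lt_of_le_of_lt (lintegral_mono fun n => ?_) h8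
  rw [ENNReal.ofReal_natCast]

/-- mean number of points -/
lemma lint_points (G : ℝ × ℝ → ℝ≥0∞) (hG : Measurable G) (hfin : ∫⁻ x, G x < ∞) :
    ∀ᵐ ω ∂PP, ∑' i : (ℤ × ℤ) × ℕ, (if i.2 < (ω i.1).1 then G ((ω i.1).2 i.2) else 0) < ∞ := by
  have hterm : ∀ (c : ℤ × ℤ) (k : ℕ), Measurable (fun p : ℕ × (ℕ → ℝ × ℝ) =>
      if k < p.1 then G (p.2 k) else 0) := by
    intro c k
    refine Measurable.ite ?_ (by fun_prop) measurable_const
    exact measurable_fst (measurableSet_Ioi (a := k))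
  have hm : ∀ i : (ℤ × ℤ) × ℕ, Measurable (fun ω : Om =>
      if i.2 < (ω i.1).1 then G ((ω i.1).2 i.2) else 0) := by
    intro i
    exact (hterm i.1 i.2).comp (measurable_pi_apply i.1)
  apply ae_lt_top (Measurable.tsum hm)
  rw [lintegral_tsum (fun i => (hm i).aemeasurable)]
  have h1 : ∀ i : (ℤ × ℤ) × ℕ, ∫⁻ ω : Om, (if i.2 < (ω i.1).1 then G ((ω i.1).2 i.2) else 0) ∂PP =
      (∫⁻ x in sq i.1, G x) * poissonMeasure 1 (Set.Ioi i.2) := by
    intro i
    have h2 := (measurePreserving_eval_infinitePi kap i.1).lintegral_comp (hterm i.1 i.2)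
    simp only [Function.eval] at h2
    rw [PP, h2, kap]
    have h3 : ∀ p : ℕ × (ℕ → ℝ × ℝ), (if i.2 < p.1 then G (p.2 i.2) else 0) =
        (Set.Ioi i.2).indicator (fun _ => (1 : ℝ≥0∞)) p.1 * G (p.2 i.2) := by
      intro p
      by_cases h : i.2 < p.1
      · rw [if_pos h, Set.indicator_of_mem (show p.1 ∈ Set.Ioi i.2 from h), one_mul]
      · rw [if_neg h, Set.indicator_of_notMem (show p.1 ∉ Set.Ioi i.2 from h), zero_mul]
    simp_rw [h3]
    rw [lintegral_prod_mul (f := (Set.Ioi i.2).indicator (fun _ => (1 : ℝ≥0∞)))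
      (g := fun y : ℕ → ℝ × ℝ => G (y i.2)) (Measurable.of_discrete).aemeasurable
      (hG.comp (measurable_pi_apply i.2)).aemeasurable]
    rw [lintegral_indicator MeasurableSet.of_discrete, mul_comm]
    congr 1
    · have h4 := (measurePreserving_eval_infinitePi (fun _ : ℕ => mu i.1) i.2).lintegral_comp hG
      simp only [Function.eval] at h4
      rw [h4, mu]
    · simp
  simp_rw [h1]
  rw [ENNReal.tsum_prod (f := fun c k => (∫⁻ x in sq c, G x) * poissonMeasure 1 (Set.Ioi k))]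
  simp_rw [ENNReal.tsum_mul_left]
  rw [ENNReal.tsum_mul_right, ← lintegral_iUnion sq_meas sq_disj, sq_univ, Measure.restrict_univ]
  exact (ENNReal.mul_lt_top hfin mean_poisson).ne

end Pool.Agent.H29R3.SP
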