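import Mathlib

set_option autoImplicit false

namespace Pool.Agent.H29R3.SP

open MeasureTheory ProbabilityTheory Filter Topology
open scoped NNReal ENNReal

/-- the jump profile for `α = 1/4` -/
noncomputable def h1 (w : ℝ) : ℝ := w / |w| ^ 5

lemma h1_measurable : Measurable h1 := by
  unfold h1
  fun_prop

lemma h1_neg (w : ℝ) : h1 (-w) = -h1 w := by
  unfold h1
  rw [abs_neg, neg_div]

lemma abs_h1 (w : ℝ) : |h1 w| = (|w| ^ 4)⁻¹ := by
  unfold h1
  by_cases hw : w = 0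
  · simp [hw]
  · have : |w| ≠ 0 := abs_ne_zero.2 hw
    rw [abs_div, abs_pow, abs_abs]
    field_simp

lemma h1_scale {l : ℝ} (hl : 0 < l) (w : ℝ) : h1 (w / l) = l ^ 4 * h1 w := by
  unfold h1
  by_cases hw : w = 0
  · simp [hw]
  · have : |w| ≠ 0 := abs_ne_zero.2 hw
    rw [abs_div, abs_of_pos hl]
    field_simp

lemma min_bound (b : ℝ) (hb : 0 ≤ b) (w : ℝ) :
    min 2 (b * (|w| ^ 4)⁻¹) ≤ (2 * (2 + b)) * (1 + w ^ 2)⁻¹ := by
  have h0 : 0 < 1 + w ^ 2 := by positivity
  suffices hh : min 2 (b * (|w| ^ 4)⁻¹) * (1 + w ^ 2) ≤ 2 * (2 + b) by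
    rw [← div_eq_mul_inv (2 * (2 + b))]
    exact (le_div_iff₀ h0).2 hh
  by_cases hw : |w| ≤ 1
  · have h1 : w ^ 2 ≤ 1 := by
      rw [← sq_abs]
      nlinarith [abs_nonneg w]
    have h2 : min 2 (b * (|w| ^ 4)⁻¹) ≤ 2 := min_le_left _ _
    have h3 : 0 ≤ min 2 (b * (|w| ^ 4)⁻¹) := by positivity
    nlinarith
  · push Not at hw
    have h1 : 1 ≤ w ^ 2 := by
      rw [← sq_abs]
      nlinarith [abs_nonneg w]
    have h2 : min 2 (b * (|w| ^ 4)⁻¹) ≤ b * (|w| ^ 4)⁻¹ := min_le_right _ _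
    have h3 : |w| ^ 4 = (w ^ 2) ^ 2 := by
      rw [← sq_abs w]
      ring
    rw [h3] at h2 ⊢
    have h4 : b * ((w ^ 2) ^ 2)⁻¹ * (1 + w ^ 2) ≤ 2 * b := by
      rw [mul_assoc]
      have : ((w ^ 2) ^ 2)⁻¹ * (1 + w ^ 2) ≤ 2 := by
        rw [inv_mul_le_iff₀ (by positivity)]
        nlinarith
      nlinarith
    calc min 2 (b * ((w ^ 2) ^ 2)⁻¹) * (1 + w ^ 2) ≤ b * ((w ^ 2) ^ 2)⁻¹ * (1 + w ^ 2) :=
          mul_le_mul_of_nonneg_right h2 h0.le
      _ ≤ 2 * b := h4
      _ ≤ 2 * (2 + b) := by linarith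

lemma norm_exp_sub_one_le (y : ℝ) :
    ‖Complex.exp ((y : ℂ) * Complex.I) - 1‖ ≤ min 2 |y| := by
  refine le_min ?_ ?_
  · refine (norm_sub_le _ _).trans ?_
    rw [Complex.norm_exp_ofReal_mul_I, norm_one]
    norm_num
  · have := Real.norm_exp_I_mul_ofReal_sub_one_le (x := y)
    rw [mul_comm] at this
    simpa using this

lemma norm_kernel_le (x w : ℝ) :
    ‖Complex.exp (((x * h1 w : ℝ) : ℂ) * Complex.I) - 1‖ ≤ (2 * (2 + |x|)) * (1 + w ^ 2)⁻¹ := by
  refine (norm_exp_sub_one_le _).trans ?_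
  rw [abs_mul, abs_h1]
  exact min_bound _ (abs_nonneg _) _

lemma integrable_kernel (x : ℝ) :
    Integrable (fun w : ℝ => Complex.exp (((x * h1 w : ℝ) : ℂ) * Complex.I) - 1) := by
  refine Integrable.mono' (integrable_inv_one_add_sq.const_mul (2 * (2 + |x|))) ?_
    (ae_of_all _ fun w => norm_kernel_le x w)
  apply Measurable.aestronglyMeasurable
  have := h1_measurable
  fun_prop

/-- the characteristic exponent of the unnormalised process -/
noncomputable def psi1 (x : ℝ) : ℂ := ∫ w : ℝ, (Complex.exp (((x * h1 w : ℝ) : ℂ) * Complex.I) - 1)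

lemma psi1_zero : psi1 0 = 0 := by
  unfold psi1
  simp

lemma psi1_neg (x : ℝ) : psi1 (-x) = psi1 x := by
  unfold psi1
  rw [← integral_neg_eq_self (fun w : ℝ => (Complex.exp (((x * h1 w : ℝ) : ℂ) * Complex.I) - 1))]
  refine integral_congr_ae (ae_of_all _ fun w => ?_)
  simp only [h1_neg]
  congr 4
  ring

lemma psi1_scale {l : ℝ} (hl : 0 < l) (x : ℝ) : psi1 (l ^ 4 * x) = l * psi1 x := by
  unfold psi1
  have := Measure.integral_comp_div
    (fun w : ℝ => (Complex.exp (((x * h1 w : ℝ) : ℂ) * Complex.I) - 1)) l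
  rw [abs_of_pos hl, Complex.real_smul] at this
  rw [← this]
  refine integral_congr_ae (ae_of_all _ fun w => ?_)
  simp only [h1_scale hl]
  congr 4
  ring

lemma psi1_conj (x : ℝ) : (starRingEnd ℂ) (psi1 x) = psi1 (-x) := by
  unfold psi1
  rw [← integral_conj]
  refine integral_congr_ae (ae_of_all _ fun w => ?_)
  simp only [map_sub, map_one]
  rw [← Complex.exp_conj, map_mul, Complex.conj_ofReal, Complex.conj_I]
  congr 2
  push_cast
  ring

lemma psi1_real (x : ℝ) : psi1 x = ((psi1 x).re : ℂ) := by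
  have h := psi1_conj x
  rw [psi1_neg] at h
  exact (Complex.conj_eq_iff_re.1 h).symm

lemma psi1_one_neg : (psi1 1).re < 0 := by
  have h1' : (psi1 1).re = ∫ w : ℝ, (Real.cos (h1 w) - 1) := by
    unfold psi1
    have h2 := integral_re (integrable_kernel 1)
    rw [show (∫ w : ℝ, (Complex.exp (((1 * h1 w : ℝ) : ℂ) * Complex.I) - 1)).re =
      RCLike.re (∫ w : ℝ, (Complex.exp (((1 * h1 w : ℝ) : ℂ) * Complex.I) - 1)) from rfl, ← h2]
    refine integral_congr_ae (ae_of_all _ fun w => ?_)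
    simp only [one_mul]
    show (Complex.exp ((h1 w : ℂ) * Complex.I) - 1).re = _
    rw [Complex.sub_re, Complex.exp_ofReal_mul_I_re, Complex.one_re]
  have hint : Integrable (fun w : ℝ => 1 - Real.cos (h1 w)) := by
    have h2 := (integrable_kernel 1).re.neg
    refine h2.congr (ae_of_all _ fun w => ?_)
    show -(Complex.exp (((1 * h1 w : ℝ) : ℂ) * Complex.I) - 1).re = _
    rw [one_mul, Complex.sub_re, Complex.exp_ofReal_mul_I_re, Complex.one_re]
    ring
  have hpos : 0 < ∫ w : ℝ, (1 - Real.cos (h1 w)) := by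
    rw [integral_pos_iff_support_of_nonneg (fun w => sub_nonneg.2 (Real.cos_le_one _)) hint]
    refine lt_of_lt_of_le ?_ (measure_mono (s := Set.Ioo (1 : ℝ) 2) ?_)
    · rw [Real.volume_Ioo]
      norm_num
    · intro w hw
      have hw0 : 0 < w := by linarith [hw.1]
      have hval : h1 w = (w ^ 4)⁻¹ := by
        unfold h1
        rw [abs_of_pos hw0]
        field_simp
      have hpos : 0 < h1 w := by rw [hval]; positivity
      have hlt : h1 w ≤ 1 := by
        rw [hval]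
        apply inv_le_one_of_one_le₀
        exact one_le_pow₀ hw.1.le
      rw [Function.mem_support]
      intro h0
      have hc : Real.cos (h1 w) = 1 := by linarith
      have hpi := Real.pi_gt_three
      rw [Real.cos_eq_one_iff_of_lt_of_lt (by linarith) (by linarith)] at hc
      linarith
  rw [h1']
  have : ∫ w : ℝ, (Real.cos (h1 w) - 1) = -∫ w : ℝ, (1 - Real.cos (h1 w)) := by
    rw [← integral_neg]
    refine integral_congr_ae (ae_of_all _ fun w => ?_)
    simp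
  rw [this]
  linarith

/-- normalised characteristic exponent -/
theorem exists_kappa : ∃ κ : ℝ, 0 < κ ∧ ∀ ξ : ℝ,
    ∫ w : ℝ, (Complex.exp (((ξ * (κ * h1 w) : ℝ) : ℂ) * Complex.I) - 1) =
      ((-(|ξ| ^ (1 / 4 : ℝ)) : ℝ) : ℂ) := by
  set C := -(psi1 1).re with hC
  have hC0 : 0 < C := by
    have := psi1_one_neg
    linarith
  have h1r : psi1 1 = ((-C : ℝ) : ℂ) := by
    rw [psi1_real 1, hC, neg_neg]
  refine ⟨(C⁻¹) ^ 4, by positivity, fun ξ => ?_⟩
  have hform : ∫ w : ℝ, (Complex.exp (((ξ * ((C⁻¹) ^ 4 * h1 w) : ℝ) : ℂ) * Complex.I) - 1) =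
      psi1 ((C⁻¹) ^ 4 * ξ) := by
    unfold psi1
    refine integral_congr_ae (ae_of_all _ fun w => ?_)
    simp only
    congr 4
    ring
  rw [hform, psi1_scale (by positivity)]
  have habs : psi1 ξ = psi1 |ξ| := by
    rcases abs_choice ξ with h | h
    · rw [h]
    · rw [h, psi1_neg]
  rw [habs]
  by_cases hξ : ξ = 0
  · rw [hξ, abs_zero, psi1_zero, mul_zero, Real.zero_rpow (by norm_num)]
    simp
  · have hpos : 0 < |ξ| := abs_pos.2 hξ
    have h4 : |ξ| = (|ξ| ^ (1 / 4 : ℝ)) ^ 4 * 1 := by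
      rw [mul_one, ← Real.rpow_natCast, ← Real.rpow_mul hpos.le]
      norm_num
    conv_lhs => rw [h4]
    rw [psi1_scale (by positivity), h1r]
    push_cast
    have : (C : ℂ) ≠ 0 := by exact_mod_cast hC0.ne'
    field_simp

end Pool.Agent.H29R3.SP
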