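import Mathlib
import Pool.Agent.H29R3.SP.Jump
import Pool.Agent.H29R3.SP.Psi
import Pool.Agent.H29R3.SP.Poisson

set_option autoImplicit false

namespace Pool.Agent.H29R3.SP

open MeasureTheory ProbabilityTheory Filter Topology
open scoped NNReal ENNReal

/-- jump sizes and jump times -/
noncomputable def ja (κ : ℝ) (ω : Om) (i : (ℤ × ℤ) × ℕ) : ℝ :=
  if i.2 < (ω i.1).1 then κ * h1 ((ω i.1).2 i.2).2 else 0

noncomputable def ju (ω : Om) (i : (ℤ × ℤ) × ℕ) : ℝ := ((ω i.1).2 i.2).1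

lemma ja_meas (κ : ℝ) (i : (ℤ × ℤ) × ℕ) : Measurable (fun ω : Om => ja κ ω i) := by
  unfold ja
  have h := h1_measurable
  refine Measurable.ite ?_ (by fun_prop) measurable_const
  have : Measurable (fun ω : Om => (ω i.1).1) := by fun_prop
  exact this (measurableSet_Ioi (a := i.2))

lemma ju_meas (i : (ℤ × ℤ) × ℕ) : Measurable (fun ω : Om => ju ω i) := by
  unfold ju
  fun_prop

lemma min_bound' {b : ℝ} (hb : 0 ≤ b) (w : ℝ) :
    min 1 (|b * h1 w| ^ (1 / 2 : ℝ)) ≤ (2 * (1 + b ^ (1 / 2 : ℝ))) * (1 + w ^ 2)⁻¹ := by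
  have h0 : 0 < 1 + w ^ 2 := by positivity
  have hval : |b * h1 w| ^ (1 / 2 : ℝ) = b ^ (1 / 2 : ℝ) * (w ^ 2)⁻¹ := by
    rw [abs_mul, abs_of_nonneg hb, abs_h1, Real.mul_rpow hb (by positivity)]
    congr 1
    rw [show |w| ^ 4 = (w ^ 2) ^ 2 by rw [← sq_abs w]; ring, ← inv_pow, ← Real.sqrt_eq_rpow]
    exact Real.sqrt_sq (by positivity)
  rw [hval]
  have hc : 0 ≤ b ^ (1 / 2 : ℝ) := by positivity
  generalize b ^ (1 / 2 : ℝ) = c at hc
  suffices hh : min 1 (c * (w ^ 2)⁻¹) * (1 + w ^ 2) ≤ 2 * (1 + c) by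
    rw [← div_eq_mul_inv (2 * (1 + c))]
    exact (le_div_iff₀ h0).2 hh
  by_cases hw : |w| ≤ 1
  · have h1 : w ^ 2 ≤ 1 := by
      rw [← sq_abs]
      nlinarith [abs_nonneg w]
    have h2 : min 1 (c * (w ^ 2)⁻¹) ≤ 1 := min_le_left _ _
    have h3 : 0 ≤ min 1 (c * (w ^ 2)⁻¹) := by positivity
    nlinarith
  · push Not at hw
    have h1 : 1 ≤ w ^ 2 := by
      rw [← sq_abs]
      nlinarith [abs_nonneg w]
    have h2 : min 1 (c * (w ^ 2)⁻¹) ≤ c * (w ^ 2)⁻¹ := min_le_right _ _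
    have h4 : c * (w ^ 2)⁻¹ * (1 + w ^ 2) ≤ 2 * c := by
      rw [mul_assoc]
      have : (w ^ 2)⁻¹ * (1 + w ^ 2) ≤ 2 := by
        rw [inv_mul_le_iff₀ (by positivity)]
        nlinarith
      nlinarith
    calc min 1 (c * (w ^ 2)⁻¹) * (1 + w ^ 2) ≤ c * (w ^ 2)⁻¹ * (1 + w ^ 2) :=
          mul_le_mul_of_nonneg_right h2 h0.le
      _ ≤ 2 * c := h4
      _ ≤ 2 * (1 + c) := by linarith

lemma integrable_strip (C : ℝ) (M : ℝ) :
    Integrable (fun z : ℝ × ℝ => (Set.Ioc (0 : ℝ) M).indicator (fun _ => (1 : ℝ)) z.1 *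
      (C * (1 + z.2 ^ 2)⁻¹)) := by
  rw [Measure.volume_eq_prod]
  exact Integrable.mul_prod (f := (Set.Ioc (0 : ℝ) M).indicator (fun _ => (1 : ℝ)))
    (g := fun w : ℝ => C * (1 + w ^ 2)⁻¹)
    ((integrable_indicator_iff measurableSet_Ioc).2 (by
      rw [integrableOn_const_iff]
      right
      rw [Real.volume_Ioc]
      exact ENNReal.ofReal_lt_top))
    (integrable_inv_one_add_sq.const_mul C)

/-- almost surely the jumps are half-summable on every bounded time interval -/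
theorem ae_HS {κ : ℝ} (hκ : 0 ≤ κ) : ∀ᵐ ω ∂PP, HS (ja κ ω) (ju ω) := by
  unfold HS
  rw [ae_all_iff]
  intro M
  let G : ℝ × ℝ → ℝ≥0∞ := fun z => ENNReal.ofReal
    (if 0 < z.1 ∧ z.1 ≤ M then min 1 (|κ * h1 z.2| ^ (1 / 2 : ℝ)) else 0)
  have hGm : Measurable G := by
    have h := h1_measurable
    refine ENNReal.measurable_ofReal.comp (Measurable.ite ?_ (by fun_prop) measurable_const)
    exact measurable_fst (measurableSet_Ioc (a := (0 : ℝ)) (b := (M : ℝ)))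
  have hGf : ∫⁻ x, G x < ∞ := by
    refine lt_of_le_of_lt (lintegral_mono fun z => ?_)
      (integrable_strip (2 * (1 + κ ^ (1 / 2 : ℝ))) M).lintegral_lt_top
    apply ENNReal.ofReal_le_ofReal
    by_cases h : 0 < z.1 ∧ z.1 ≤ M
    · rw [if_pos h, Set.indicator_of_mem (show z.1 ∈ Set.Ioc (0 : ℝ) M from h), one_mul]
      exact min_bound' hκ z.2
    · rw [if_neg h, Set.indicator_of_notMem (show z.1 ∉ Set.Ioc (0 : ℝ) M from h), zero_mul]
  filter_upwards [lint_points G hGm hGf] with ω hω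
  set b : (ℤ × ℤ) × ℕ → ℝ := fun i => if 0 < ju ω i ∧ ju ω i ≤ M then |ja κ ω i| ^ (1 / 2 : ℝ) else 0
    with hb
  have hb0 : ∀ i, 0 ≤ b i := by
    intro i
    rw [hb]
    simp only
    split_ifs <;> positivity
  have heq : ∀ i : (ℤ × ℤ) × ℕ, (if i.2 < (ω i.1).1 then G ((ω i.1).2 i.2) else 0) =
      ENNReal.ofReal (min 1 (b i)) := by
    intro i
    by_cases h1' : i.2 < (ω i.1).1
    · rw [if_pos h1']
      simp only [G, hb, ja, ju, if_pos h1']
      by_cases h2 : 0 < ((ω i.1).2 i.2).1 ∧ ((ω i.1).2 i.2).1 ≤ M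
      · rw [if_pos h2, if_pos h2]
      · rw [if_neg h2, if_neg h2]
        simp
    · rw [if_neg h1']
      simp only [hb, ja, if_neg h1']
      have : |(0 : ℝ)| ^ (1 / 2 : ℝ) = 0 := by
        rw [abs_zero, Real.zero_rpow (by norm_num)]
      rw [this]
      simp
  simp_rw [heq] at hω
  have h2 := ENNReal.summable_toReal hω.ne
  have h3 : ∀ i, (ENNReal.ofReal (min 1 (b i))).toReal = min 1 (b i) := fun i =>
    ENNReal.toReal_ofReal (le_min zero_le_one (hb0 i))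
  simp_rw [h3] at h2
  -- cofinitely many `b i` are `< 1`
  have h4 : ∀ᶠ i in cofinite, min 1 (b i) < 1 :=
    h2.tendsto_cofinite_zero.eventually (Iio_mem_nhds one_pos)
  refine h2.congr_cofinite ?_
  filter_upwards [h4] with i hi
  rcases min_lt_iff.1 hi with h5 | h5
  · exact absurd h5 (lt_irrefl _)
  · exact min_eq_right h5.le

end Pool.Agent.H29R3.SP
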