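import Mathlib
import Pool.Agent.H29R3.SP.Proc

set_option autoImplicit false

namespace Pool.Agent.H29R3.SP

open MeasureTheory ProbabilityTheory Filter Topology
open scoped NNReal ENNReal

lemma HS.summable_theta {ι : Type} {a u : ι → ℝ} (h : HS a u) {θ : ℝ → ℝ} {B : ℝ} {M : ℕ}
    (hB : ∀ x, |θ x| ≤ B) (hsupp : ∀ x, x ∉ Set.Ioc (0 : ℝ) M → θ x = 0) :
    Summable (fun i => θ (u i) * a i) := by
  refine Summable.of_norm_bounded ((h.abs M).mul_left B) (fun i => ?_)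
  rw [Real.norm_eq_abs, abs_mul]
  by_cases hi : 0 < u i ∧ u i ≤ M
  · rw [if_pos hi]
    exact mul_le_mul_of_nonneg_right (hB _) (abs_nonneg _)
  · rw [if_neg hi, hsupp _ hi, abs_zero, zero_mul, mul_zero]

/-- the cell function -/
noncomputable def gf (κ : ℝ) (θ : ℝ → ℝ) (x : ℝ × ℝ) : ℂ :=
  Complex.exp (((θ x.1 * (κ * h1 x.2) : ℝ) : ℂ) * Complex.I)

lemma gf_meas (κ : ℝ) {θ : ℝ → ℝ} (hθ : Measurable θ) : Measurable (gf κ θ) := by
  unfold gf
  have h := h1_measurable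
  fun_prop

lemma gf_norm (κ : ℝ) (θ : ℝ → ℝ) (x : ℝ × ℝ) : ‖gf κ θ x‖ = 1 := by
  unfold gf
  rw [Complex.norm_exp_ofReal_mul_I]

lemma gf_int {κ : ℝ} (hκ : 0 ≤ κ) {θ : ℝ → ℝ} (hθ : Measurable θ) {B : ℝ} {M : ℕ}
    (hB : ∀ x, |θ x| ≤ B) (hsupp : ∀ x, x ∉ Set.Ioc (0 : ℝ) M → θ x = 0) :
    Integrable (fun x : ℝ × ℝ => gf κ θ x - 1) := by
  refine Integrable.mono' (integrable_strip (2 * (2 + B * κ)) M)
    ((gf_meas κ hθ).sub_const 1).aestronglyMeasurable (ae_of_all _ fun x => ?_)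
  by_cases hx : x.1 ∈ Set.Ioc (0 : ℝ) M
  · rw [Set.indicator_of_mem hx, one_mul]
    unfold gf
    refine (norm_exp_sub_one_le _).trans ?_
    have hB0 : 0 ≤ B := (abs_nonneg _).trans (hB 0)
    refine le_trans ?_ (min_bound (B * κ) (by positivity) x.2)
    apply min_le_min le_rfl
    rw [abs_mul, abs_mul, abs_h1, abs_of_nonneg hκ, ← mul_assoc]
    exact mul_le_mul_of_nonneg_right (mul_le_mul_of_nonneg_right (hB _) hκ) (by positivity)
  · rw [Set.indicator_of_notMem hx, zero_mul]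
    unfold gf
    rw [hsupp _ hx]
    simp

lemma gf_integral {κ : ℝ} (hκ : 0 ≤ κ)
    (hpsi : ∀ ξ : ℝ, ∫ w : ℝ, (Complex.exp (((ξ * (κ * h1 w) : ℝ) : ℂ) * Complex.I) - 1) =
      ((-(|ξ| ^ (1 / 4 : ℝ)) : ℝ) : ℂ))
    {θ : ℝ → ℝ} (hθ : Measurable θ) {B : ℝ} {M : ℕ}
    (hB : ∀ x, |θ x| ≤ B) (hsupp : ∀ x, x ∉ Set.Ioc (0 : ℝ) M → θ x = 0) :
    ∫ x : ℝ × ℝ, (gf κ θ x - 1) = ((-∫ u : ℝ, |θ u| ^ (1 / 4 : ℝ) : ℝ) : ℂ) := by
  have h1' := gf_int hκ hθ hB hsupp
  rw [Measure.volume_eq_prod] at h1' ⊢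
  rw [integral_prod _ h1']
  unfold gf
  simp only
  simp_rw [hpsi]
  rw [integral_complex_ofReal, integral_neg]

/-- characteristic function of linear statistics -/
theorem campbell {κ : ℝ} (hκ : 0 ≤ κ)
    (hpsi : ∀ ξ : ℝ, ∫ w : ℝ, (Complex.exp (((ξ * (κ * h1 w) : ℝ) : ℂ) * Complex.I) - 1) =
      ((-(|ξ| ^ (1 / 4 : ℝ)) : ℝ) : ℂ))
    {θ : ℝ → ℝ} (hθ : Measurable θ) {B : ℝ} {M : ℕ}
    (hB : ∀ x, |θ x| ≤ B) (hsupp : ∀ x, x ∉ Set.Ioc (0 : ℝ) M → θ x = 0) :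
    ∫ ω, Complex.exp (((∑' i, θ (ju ω i) * ja κ ω i : ℝ) : ℂ) * Complex.I) ∂PP =
      Complex.exp ((-∫ u : ℝ, |θ u| ^ (1 / 4 : ℝ) : ℝ) : ℂ) := by
  -- cell sums
  let S : (ℤ × ℤ) → Om → ℝ := fun c ω =>
    ∑ k ∈ Finset.range (ω c).1, θ ((ω c).2 k).1 * (κ * h1 ((ω c).2 k).2)
  let H : ℕ × (ℕ → ℝ × ℝ) → ℂ := fun p => ∏ k ∈ Finset.range p.1, gf κ θ (p.2 k)
  have hHm : Measurable H := by
    have hg := gf_meas κ hθ
    apply measurable_from_prod_countable_right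
    intro n
    simp only [H]
    fun_prop
  have hSH : ∀ c ω, Complex.exp ((S c ω : ℂ) * Complex.I) = H (ω c) := by
    intro c ω
    simp only [S, H, gf]
    rw [← Complex.exp_sum]
    congr 1
    push_cast
    rw [Finset.sum_mul]
  have hlim : ∀ᵐ ω ∂PP, Tendsto (fun F : Finset (ℤ × ℤ) => ∑ c ∈ F, S c ω) atTop
      (𝓝 (∑' i, θ (ju ω i) * ja κ ω i)) := by
    filter_upwards [ae_HS hκ] with ω hω
    have hs := (hω.summable_theta hB hsupp).hasSum
    refine HasSum.prod_fiberwise hs (fun c => ?_)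
    have h2 : ∀ k ∉ Finset.range (ω c).1, θ (ju ω (c, k)) * ja κ ω (c, k) = 0 := by
      intro k hk
      rw [Finset.mem_range] at hk
      simp only [ja, if_neg hk, mul_zero]
    have h3 : HasSum (fun k => θ (ju ω (c, k)) * ja κ ω (c, k))
        (∑ k ∈ Finset.range (ω c).1, θ (ju ω (c, k)) * ja κ ω (c, k)) :=
      hasSum_sum_of_ne_finset_zero h2
    convert h3 using 1
    refine Finset.sum_congr rfl fun k hk => ?_
    rw [Finset.mem_range] at hk
    simp only [ja, ju, if_pos hk]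
  have hfin : ∀ F : Finset (ℤ × ℤ),
      ∫ ω, Complex.exp (((∑ c ∈ F, S c ω : ℝ) : ℂ) * Complex.I) ∂PP =
        Complex.exp (∑ c ∈ F, ∫ x in sq c, (gf κ θ x - 1)) := by
    intro F
    have h1' : ∀ ω, Complex.exp (((∑ c ∈ F, S c ω : ℝ) : ℂ) * Complex.I) = ∏ c ∈ F, H (ω c) := by
      intro ω
      simp_rw [← hSH]
      rw [← Complex.exp_sum, ← Finset.sum_mul]
      congr 2
      push_cast
      rfl
    simp_rw [h1']
    rw [PP, integral_prod_infinitePi kap F (fun _ => H) (fun _ => hHm), Complex.exp_sum]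
    refine Finset.prod_congr rfl fun c _ => ?_
    rw [cell_integral c (gf κ θ) (gf_meas κ hθ) (fun x => (gf_norm κ θ x).le)]
    congr 1
    have hi : Integrable (gf κ θ) (mu c) := by
      refine Integrable.mono' (integrable_const (1 : ℝ)) (gf_meas κ hθ).aestronglyMeasurable
        (ae_of_all _ fun x => (gf_norm κ θ x).le)
    show ∫ x, gf κ θ x ∂(mu c) - 1 = ∫ x, (gf κ θ x - 1) ∂(mu c)
    rw [integral_sub hi (integrable_const _)]
    simp
  have hSm : ∀ c, Measurable (S c) := by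
    intro c
    have h := h1_measurable
    have : Measurable (fun p : ℕ × (ℕ → ℝ × ℝ) =>
        ∑ k ∈ Finset.range p.1, θ (p.2 k).1 * (κ * h1 (p.2 k).2)) := by
      apply measurable_from_prod_countable_right
      intro n
      simp only
      fun_prop
    exact this.comp (measurable_pi_apply c)
  have hL : Tendsto (fun F : Finset (ℤ × ℤ) =>
      ∫ ω, Complex.exp (((∑ c ∈ F, S c ω : ℝ) : ℂ) * Complex.I) ∂PP) atTop
      (𝓝 (∫ ω, Complex.exp (((∑' i, θ (ju ω i) * ja κ ω i : ℝ) : ℂ) * Complex.I) ∂PP)) := by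
    refine tendsto_integral_filter_of_dominated_convergence (fun _ => (1 : ℝ)) ?_ ?_
      (integrable_const _) ?_
    · refine Eventually.of_forall fun F => Measurable.aestronglyMeasurable ?_
      have h1' : Measurable (fun ω => ∑ c ∈ F, S c ω) := Finset.measurable_sum _ (fun c _ => hSm c)
      fun_prop
    · refine Eventually.of_forall fun F => ae_of_all _ fun ω => ?_
      rw [Complex.norm_exp_ofReal_mul_I]
    · filter_upwards [hlim] with ω hω
      have hcont : Continuous (fun x : ℝ => Complex.exp ((x : ℂ) * Complex.I)) := by fun_prop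
      exact (hcont.tendsto _).comp hω
  have hR : Tendsto (fun F : Finset (ℤ × ℤ) =>
      Complex.exp (∑ c ∈ F, ∫ x in sq c, (gf κ θ x - 1))) atTop
      (𝓝 (Complex.exp ((-∫ u : ℝ, |θ u| ^ (1 / 4 : ℝ) : ℝ) : ℂ))) := by
    have h1' := hasSum_integral_iUnion sq_meas sq_disj (μ := volume) (f := fun x => gf κ θ x - 1)
      ((gf_int hκ hθ hB hsupp).integrableOn)
    rw [sq_univ, Measure.restrict_univ, gf_integral hκ hpsi hθ hB hsupp] at h1'
    exact (Complex.continuous_exp.tendsto _).comp h1'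
  simp_rw [hfin] at hL
  exact tendsto_nhds_unique hL hR

end Pool.Agent.H29R3.SP
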