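import Mathlib
import Pool.Agent.H29R3.SP.Campbell

set_option autoImplicit false

namespace Pool.Agent.H29R3.SP

open MeasureTheory ProbabilityTheory Filter Topology
open scoped NNReal ENNReal

/-- the process -/
noncomputable def XX (κ : ℝ) (t : ℝ) (ω : Om) : ℝ := path (ja κ ω) (ju ω) t

lemma XX_meas (κ t : ℝ) : Measurable (XX κ t) := by
  unfold XX path
  apply Measurable.tsum
  intro i
  have h1' := ja_meas κ i
  have h2 := ju_meas i
  refine Measurable.ite ?_ h1' measurable_const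
  exact h2 (measurableSet_Ioc (a := (0 : ℝ)) (b := t))

lemma HS.incr {ι : Type} {a u : ι → ℝ} (h : HS a u) {s t : ℝ} (hs : 0 ≤ s) (hst : s ≤ t) :
    path a u t - path a u s = ∑' i, (Set.Ioc s t).indicator (fun _ => (1 : ℝ)) (u i) * a i := by
  unfold path
  rw [← (h.summable t).tsum_sub (h.summable s)]
  refine tsum_congr fun i => ?_
  by_cases h1 : u i ≤ s
  · have h2 : u i ≤ t := h1.trans hst
    rw [Set.indicator_of_notMem (fun hh => absurd hh.1 (not_lt.2 h1)), zero_mul]
    simp only [h1, h2, and_true]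
    exact sub_self _
  · push Not at h1
    have h0 : 0 < u i := lt_of_le_of_lt hs h1
    rw [if_neg (c := 0 < u i ∧ u i ≤ s) (fun hh => absurd hh.2 (not_le.2 h1)), sub_zero]
    by_cases h2 : u i ≤ t
    · rw [if_pos ⟨h0, h2⟩, Set.indicator_of_mem (show u i ∈ Set.Ioc s t from ⟨h1, h2⟩), one_mul]
    · rw [if_neg (fun hh => h2 hh.2), Set.indicator_of_notMem (fun hh => h2 hh.2), zero_mul]

theorem char_incr {κ : ℝ} (hκ : 0 ≤ κ)
    (hpsi : ∀ ξ : ℝ, ∫ w : ℝ, (Complex.exp (((ξ * (κ * h1 w) : ℝ) : ℂ) * Complex.I) - 1) =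
      ((-(|ξ| ^ (1 / 4 : ℝ)) : ℝ) : ℂ))
    {J : Type} [Fintype J] (p q : J → ℝ) (hp : ∀ j, 0 ≤ p j) (hpq : ∀ j, p j ≤ q j)
    (hd : ∀ i j, i ≠ j → Disjoint (Set.Ioc (p i) (q i)) (Set.Ioc (p j) (q j))) (ξ : J → ℝ) :
    ∫ ω, Complex.exp (((∑ j, ξ j * (XX κ (q j) ω - XX κ (p j) ω) : ℝ) : ℂ) * Complex.I) ∂PP =
      ∏ j, ((Real.exp (-(q j - p j) * |ξ j| ^ (1 / 4 : ℝ)) : ℝ) : ℂ) := by
  classical
  let θ : ℝ → ℝ := fun x => ∑ j, ξ j * (Set.Ioc (p j) (q j)).indicator (fun _ => (1 : ℝ)) x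
  have hθ : Measurable θ := by
    apply Finset.measurable_sum
    intro j _
    exact (measurable_const.indicator measurableSet_Ioc).const_mul _
  have hq : ∀ j, q j ≤ (⌈∑ j, q j⌉₊ : ℝ) := by
    intro j
    refine le_trans ?_ (Nat.le_ceil _)
    exact Finset.single_le_sum (f := q) (fun i _ => (hp i).trans (hpq i)) (Finset.mem_univ j)
  have hB : ∀ x, |θ x| ≤ ∑ j, |ξ j| := by
    intro x
    refine (Finset.abs_sum_le_sum_abs _ _).trans (Finset.sum_le_sum fun j _ => ?_)
    by_cases hx : x ∈ Set.Ioc (p j) (q j)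
    · rw [Set.indicator_of_mem hx, mul_one]
    · rw [Set.indicator_of_notMem hx, mul_zero, abs_zero]
      exact abs_nonneg _
  have hsupp : ∀ x, x ∉ Set.Ioc (0 : ℝ) (⌈∑ j, q j⌉₊ : ℝ) → θ x = 0 := by
    intro x hx
    apply Finset.sum_eq_zero
    intro j _
    rw [Set.indicator_of_notMem, mul_zero]
    intro hx'
    exact hx ⟨lt_of_le_of_lt (hp j) hx'.1, hx'.2.trans (hq j)⟩
  have hc := campbell hκ hpsi hθ hB hsupp
  have hL : ∫ ω, Complex.exp (((∑ j, ξ j * (XX κ (q j) ω - XX κ (p j) ω) : ℝ) : ℂ) * Complex.I) ∂PP =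
      ∫ ω, Complex.exp (((∑' i, θ (ju ω i) * ja κ ω i : ℝ) : ℂ) * Complex.I) ∂PP := by
    apply integral_congr_ae
    filter_upwards [ae_HS hκ] with ω hω
    have hs : ∀ j, Summable (fun i =>
        (Set.Ioc (p j) (q j)).indicator (fun _ => (1 : ℝ)) (ju ω i) * ja κ ω i) := by
      intro j
      refine hω.summable_theta (B := 1) (M := ⌈q j⌉₊) (θ := (Set.Ioc (p j) (q j)).indicator
        (fun _ => (1 : ℝ))) (fun x => ?_) (fun x hx => ?_)
      · by_cases hx : x ∈ Set.Ioc (p j) (q j)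
        · rw [Set.indicator_of_mem hx, abs_one]
        · rw [Set.indicator_of_notMem hx, abs_zero]
          exact zero_le_one
      · rw [Set.indicator_of_notMem]
        intro hx'
        exact hx ⟨lt_of_le_of_lt (hp j) hx'.1, hx'.2.trans (Nat.le_ceil _)⟩
    have h1' : ∑ j, ξ j * (XX κ (q j) ω - XX κ (p j) ω) = ∑' i, θ (ju ω i) * ja κ ω i := by
      have h2 : ∀ j, ξ j * (XX κ (q j) ω - XX κ (p j) ω) = ∑' i,
          ξ j * ((Set.Ioc (p j) (q j)).indicator (fun _ => (1 : ℝ)) (ju ω i) * ja κ ω i) := by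
        intro j
        unfold XX
        rw [hω.incr (hp j) (hpq j), (hs j).tsum_mul_left]
      simp_rw [h2]
      rw [← Summable.tsum_finsetSum (fun j _ => (hs j).mul_left (ξ j))]
      refine tsum_congr fun i => ?_
      simp only [θ]
      rw [Finset.sum_mul]
      refine Finset.sum_congr rfl fun j _ => ?_
      ring
    rw [h1']
  rw [hL, hc]
  have hpt : ∀ x, |θ x| ^ (1 / 4 : ℝ) =
      ∑ j, |ξ j| ^ (1 / 4 : ℝ) * (Set.Ioc (p j) (q j)).indicator (fun _ => (1 : ℝ)) x := by
    intro x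
    by_cases hx : ∃ j, x ∈ Set.Ioc (p j) (q j)
    · obtain ⟨j, hj⟩ := hx
      have hne : ∀ i, i ≠ j → x ∉ Set.Ioc (p i) (q i) := fun i hi hxi =>
        Set.disjoint_left.1 (hd i j hi) hxi hj
      simp only [θ]
      rw [Finset.sum_eq_single j, Finset.sum_eq_single j, Set.indicator_of_mem hj, mul_one, mul_one]
      · intro i _ hi
        rw [Set.indicator_of_notMem (hne i hi), mul_zero]
      · intro h; exact absurd (Finset.mem_univ j) h
      · intro i _ hi
        rw [Set.indicator_of_notMem (hne i hi), mul_zero]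
      · intro h; exact absurd (Finset.mem_univ j) h
    · push Not at hx
      simp only [θ]
      rw [Finset.sum_eq_zero, Finset.sum_eq_zero, abs_zero, Real.zero_rpow (by norm_num)]
      · intro i _
        rw [Set.indicator_of_notMem (hx i), mul_zero]
      · intro i _
        rw [Set.indicator_of_notMem (hx i), mul_zero]
  have hint : ∫ x, |θ x| ^ (1 / 4 : ℝ) = ∑ j, |ξ j| ^ (1 / 4 : ℝ) * (q j - p j) := by
    simp_rw [hpt]
    rw [integral_finsetSum]
    · refine Finset.sum_congr rfl fun j _ => ?_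
      rw [integral_const_mul, integral_indicator measurableSet_Ioc, setIntegral_const,
        Real.volume_real_Ioc_of_le (hpq j), smul_eq_mul, mul_one]
    · intro j _
      apply Integrable.const_mul
      rw [integrable_indicator_iff measurableSet_Ioc, integrableOn_const_iff]
      right
      rw [Real.volume_Ioc]
      exact ENNReal.ofReal_lt_top
  rw [hint, ← Complex.ofReal_exp, ← Complex.ofReal_prod, ← Real.exp_sum, ← Finset.sum_neg_distrib]
  congr 2
  refine Finset.sum_congr rfl fun j _ => ?_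
  ring

end Pool.Agent.H29R3.SP
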