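import Mathlib
import Pool.Agent.H29R3.SP.Energy
import Pool.Agent.H29R3.SP.Jump

set_option autoImplicit false

namespace Pool.Agent.H29R3.SP

open MeasureTheory ProbabilityTheory Filter Topology
open scoped NNReal ENNReal

variable {ι : Type} {a u : ι → ℝ}

lemma HS.close' (h : HS a u) {δ : ℝ} (hδ : 0 < δ) {s t : ℝ} (hs : s ∈ Set.Icc (0 : ℝ) 1)
    (ht : t ∈ Set.Icc (0 : ℝ) 1) (hc : ⌊cnt a u δ s⌋₊ = ⌊cnt a u δ t⌋₊) :
    |path a u s - path a u t| ≤ δ := by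
  have key : ∀ x y : ℝ, ⌊x⌋₊ = ⌊y⌋₊ → 0 ≤ x → 0 ≤ y → x - y < 1 := by
    intro x y hxy hx hy
    have h1 := Nat.floor_le hy
    have h2 := Nat.lt_floor_add_one x
    rw [hxy] at h2
    linarith
  rcases le_total s t with hst | hst
  · rw [abs_sub_comm]
    exact h.close hδ hs.1 hst ht.2 (key _ _ hc.symm (cnt_nonneg hδ _) (cnt_nonneg hδ _))
  · exact h.close hδ ht.1 hst hs.2 (key _ _ hc (cnt_nonneg hδ _) (cnt_nonneg hδ _))

lemma HS.lower (h : HS a u) (μ : Measure (ℝ × ℝ)) [IsProbabilityMeasure μ] (K : Set (ℝ × ℝ))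
    (hK : K ⊆ {p | p.1 ∈ Set.Icc (0 : ℝ) 1 ∧ p.2 = path a u p.1}) (hμ : μ Kᶜ = 0)
    {δ : ℝ} (hδ : 0 < δ) :
    Real.exp (-(1 / 2)) / ((⌊cnt a u δ 1⌋₊ : ℝ) + 1) ≤
      ∫ z : (ℝ × ℝ) × (ℝ × ℝ), Real.exp (-(δ⁻¹ ^ 2) * (z.1.2 - z.2.2) ^ 2 / 2) ∂(μ.prod μ) := by
  set N := ⌊cnt a u δ 1⌋₊ with hN
  let B : ℕ → Set (ℝ × ℝ) := fun k => {p | ⌊cnt a u δ p.1⌋₊ = k}
  have hmeas : Measurable (fun p : ℝ × ℝ => ⌊cnt a u δ p.1⌋₊) :=
    Nat.measurable_floor.comp ((h.cnt_mono hδ).measurable.comp measurable_fst)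
  have hB : ∀ k, MeasurableSet (B k) := fun k => hmeas (measurableSet_singleton k)
  have hKae : ∀ᵐ p ∂μ, p ∈ K := by
    rw [ae_iff]
    exact hμ
  have hsum : ∑ k ∈ Finset.range (N + 1), μ.real (B k) = 1 := by
    rw [← measureReal_biUnion_finset]
    · have : (⋃ k ∈ Finset.range (N + 1), B k) =ᵐ[μ] (Set.univ : Set (ℝ × ℝ)) := by
        rw [eventuallyEq_univ]
        filter_upwards [hKae] with p hp
        have h1 := (hK hp).1
        have h2 : ⌊cnt a u δ p.1⌋₊ ≤ N := Nat.floor_le_floor (h.cnt_mono hδ h1.2)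
        simp only [Set.mem_iUnion, Finset.mem_range]
        exact ⟨_, by omega, rfl⟩
      rw [measureReal_congr this]
      simp
    · intro i _ j _ hij
      rw [Function.onFun, Set.disjoint_left]
      intro p hp hp'
      exact hij (hp.symm.trans hp')
    · intro k _
      exact hB k
  have hcs : 1 ≤ ((N : ℝ) + 1) * ∑ k ∈ Finset.range (N + 1), (μ.real (B k)) ^ 2 := by
    have := sq_sum_le_card_mul_sum_sq (s := Finset.range (N + 1)) (f := fun k => μ.real (B k))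
    rw [hsum, Finset.card_range] at this
    push_cast at this
    linarith
  have hint : ∫ z, (∑ k ∈ Finset.range (N + 1),
      (B k ×ˢ B k).indicator (fun _ => Real.exp (-(1 / 2))) z) ∂(μ.prod μ) =
      Real.exp (-(1 / 2)) * ∑ k ∈ Finset.range (N + 1), (μ.real (B k)) ^ 2 := by
    rw [integral_finsetSum]
    · rw [Finset.mul_sum]
      refine Finset.sum_congr rfl fun k _ => ?_
      rw [integral_indicator ((hB k).prod (hB k)), setIntegral_const, measureReal_prod_prod,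
        smul_eq_mul]
      ring
    · intro k _
      exact (integrable_const _).indicator ((hB k).prod (hB k))
  have hle : Real.exp (-(1 / 2)) * ∑ k ∈ Finset.range (N + 1), (μ.real (B k)) ^ 2 ≤
      ∫ z : (ℝ × ℝ) × (ℝ × ℝ), Real.exp (-(δ⁻¹ ^ 2) * (z.1.2 - z.2.2) ^ 2 / 2) ∂(μ.prod μ) := by
    rw [← hint]
    apply integral_mono_ae
    · apply integrable_finsetSum
      intro k _
      exact (integrable_const _).indicator ((hB k).prod (hB k))
    · refine Integrable.mono' (integrable_const (1 : ℝ)) ?_ ?_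
      · apply Measurable.aestronglyMeasurable
        fun_prop
      · refine ae_of_all _ fun z => ?_
        rw [Real.norm_eq_abs, abs_of_pos (Real.exp_pos _)]
        apply Real.exp_le_one_iff.2
        have : 0 ≤ δ⁻¹ ^ 2 * (z.1.2 - z.2.2) ^ 2 := by positivity
        linarith
    · have h1 : ∀ᵐ z ∂(μ.prod μ), z.1 ∈ K := Measure.quasiMeasurePreserving_fst.ae hKae
      have h2 : ∀ᵐ z ∂(μ.prod μ), z.2 ∈ K := Measure.quasiMeasurePreserving_snd.ae hKae
      filter_upwards [h1, h2] with z hz1 hz2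
      by_cases hfl : ⌊cnt a u δ z.1.1⌋₊ = ⌊cnt a u δ z.2.1⌋₊
      · have hcl := h.close' hδ (hK hz1).1 (hK hz2).1 hfl
        rw [← (hK hz1).2, ← (hK hz2).2] at hcl
        have hsq : (z.1.2 - z.2.2) ^ 2 ≤ δ ^ 2 := by
          rw [← sq_abs]
          exact pow_le_pow_left₀ (abs_nonneg _) hcl 2
        have hlast : Real.exp (-(1 / 2)) ≤ Real.exp (-(δ⁻¹ ^ 2) * (z.1.2 - z.2.2) ^ 2 / 2) := by
          apply Real.exp_le_exp.2
          have h3 : δ⁻¹ ^ 2 * (z.1.2 - z.2.2) ^ 2 ≤ δ⁻¹ ^ 2 * δ ^ 2 :=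
            mul_le_mul_of_nonneg_left hsq (by positivity)
          have h4 : δ⁻¹ ^ 2 * δ ^ 2 = 1 := by
            rw [← mul_pow, inv_mul_cancel₀ hδ.ne', one_pow]
          linarith
        refine le_trans ?_ hlast
        by_cases hk : ⌊cnt a u δ z.1.1⌋₊ ∈ Finset.range (N + 1)
        · rw [Finset.sum_eq_single_of_mem _ hk]
          · by_cases hm : z ∈ B ⌊cnt a u δ z.1.1⌋₊ ×ˢ B ⌊cnt a u δ z.1.1⌋₊
            · rw [Set.indicator_of_mem hm]
            · rw [Set.indicator_of_notMem hm]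
              positivity
          · intro k _ hk'
            rw [Set.indicator_of_notMem]
            rintro ⟨hz, -⟩
            exact hk' hz.symm
        · rw [Finset.sum_eq_zero]
          · positivity
          · intro k hk'
            rw [Set.indicator_of_notMem]
            rintro ⟨hz, -⟩
            have hz' : ⌊cnt a u δ z.1.1⌋₊ = k := hz
            rw [hz'] at hk
            exact hk hk'
      · rw [Finset.sum_eq_zero]
        · positivity
        · intro k _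
          rw [Set.indicator_of_notMem]
          rintro ⟨hz, hz'⟩
          exact hfl (Eq.trans hz hz'.symm)
  refine le_trans ?_ hle
  rw [div_le_iff₀ (by positivity)]
  have := Real.exp_pos (-(1 / 2 : ℝ))
  nlinarith

/-- the graph of a pure jump path with half-summable jumps carries no measure with Fourier decay
exponent `3/8`. -/
theorem HS.no_measure (h : HS a u) (μ : Measure (ℝ × ℝ)) [IsProbabilityMeasure μ] (K : Set (ℝ × ℝ))
    (hK : K ⊆ {p | p.1 ∈ Set.Icc (0 : ℝ) 1 ∧ p.2 = path a u p.1}) (hμ : μ Kᶜ = 0) (C : ℝ)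
    (hC : ∀ ξ : ℝ × ℝ, 1 ≤ ‖ξ‖ →
      ‖∫ p, Complex.exp (((ξ.1 * p.1 + ξ.2 * p.2 : ℝ) : ℂ) * Complex.I) ∂μ‖ ≤
        C * ‖ξ‖ ^ (-(3 / 4 : ℝ) / 2)) : False := by
  obtain ⟨C', hC'⟩ := energy_le μ (s := 3 / 4) (by norm_num) (by norm_num) hC
  set S := ∑' i, if 0 < u i ∧ u i ≤ (1 : ℕ) then |a i| ^ (1 / 2 : ℝ) else 0 with hS
  have hS0 : 0 ≤ S := tsum_nonneg fun i => by split_ifs <;> positivity
  have key : ∀ ε : ℝ, 0 < ε → ε ≤ 1 → Real.exp (-(1 / 2)) ≤ (S + 1) * C' * ε := by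
    intro ε hε hε1
    have hδ : 0 < ε ^ 4 := by positivity
    have h1 := h.lower μ K hK hμ hδ
    obtain ⟨v, hv⟩ : ∃ v : ℝ≥0, (v : ℝ) = ((ε ^ 4)⁻¹) ^ 2 := ⟨⟨_, by positivity⟩, rfl⟩
    have h2 := hC' v (by
      intro h0
      rw [h0] at hv
      have h4 : 0 < ((ε ^ 4)⁻¹) ^ 2 := by positivity
      rw [← hv] at h4
      exact lt_irrefl _ h4)
    rw [hv] at h2
    have h3 := h1.trans h2
    have h4 : (((ε ^ 4)⁻¹) ^ 2) ^ (-(3 / 4 : ℝ) / 2) = ε ^ 3 := by
      rw [show (((ε ^ 4)⁻¹) ^ 2 : ℝ) = ε ^ (-8 : ℝ) by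
        rw [Real.rpow_neg hε.le, show (8 : ℝ) = ((8 : ℕ) : ℝ) by norm_num, Real.rpow_natCast,
          inv_pow, ← pow_mul]]
      rw [← Real.rpow_mul hε.le, ← Real.rpow_natCast]
      congr 1
      norm_num
    rw [h4] at h3
    have h5 : (⌊cnt a u (ε ^ 4) 1⌋₊ : ℝ) + 1 ≤ (S + 1) * (ε ^ 2)⁻¹ := by
      have h6 := Nat.floor_le (cnt_nonneg (a := a) (u := u) hδ 1)
      have h7 := h.cnt_le hδ 1
      have h8 : ((ε ^ 4) ^ (1 / 2 : ℝ)) = ε ^ 2 := by
        rw [← Real.sqrt_eq_rpow, show ε ^ 4 = (ε ^ 2) ^ 2 by ring]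
        exact Real.sqrt_sq (by positivity)
      rw [h8] at h7
      have h9 : (1 : ℝ) ≤ (ε ^ 2)⁻¹ := by
        rw [one_le_inv₀ (by positivity)]
        nlinarith
      nlinarith
    have hpos : (0 : ℝ) < (⌊cnt a u (ε ^ 4) 1⌋₊ : ℝ) + 1 := by positivity
    rw [div_le_iff₀ hpos] at h3
    have hC0 : 0 ≤ C' * ε ^ 3 := by
      by_contra hneg
      push Not at hneg
      have := Real.exp_pos (-(1 / 2 : ℝ))
      nlinarith
    calc Real.exp (-(1 / 2)) ≤ C' * ε ^ 3 * ((⌊cnt a u (ε ^ 4) 1⌋₊ : ℝ) + 1) := h3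
      _ ≤ C' * ε ^ 3 * ((S + 1) * (ε ^ 2)⁻¹) := mul_le_mul_of_nonneg_left h5 hC0
      _ = (S + 1) * C' * ε := by
          field_simp
  have hlim : Tendsto (fun ε : ℝ => (S + 1) * C' * ε) (𝓝[>] 0) (𝓝 ((S + 1) * C' * 0)) := by
    apply Tendsto.const_mul
    exact tendsto_nhdsWithin_of_tendsto_nhds tendsto_id
  have hle : Real.exp (-(1 / 2)) ≤ (S + 1) * C' * 0 := by
    refine ge_of_tendsto hlim ?_
    have : ∀ᶠ ε : ℝ in 𝓝[>] 0, ε < 1 := mem_nhdsWithin_of_mem_nhds (Iio_mem_nhds one_pos)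
    filter_upwards [this, self_mem_nhdsWithin] with ε h1 h2
    exact key ε h2 h1.le
  have := Real.exp_pos (-(1 / 2 : ℝ))
  linarith

end Pool.Agent.H29R3.SP
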